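import Mathlib
import Pool.Agent.W126.PrimeShort

set_option autoImplicit false

/-! Primes of a residue class in the intervals `(x, x + x / (log x)^A]`, uniformly in the modulus
`q ≤ log x`. -/

open Finset Filter Topology

namespace Pool.Agent.TH432.Had

open Pool.Agent.H410R2 (psiLogAP psiLog1 psiLog)
open Pool.Agent.W142.ES (psiLogAP_max psiLog1_max secdiff secdiff1 secdiff1_ge secdiff_le)
open Pool.Agent.W126.PrimeShort (psi_diff)

theorem sw : Pool.Agent.H410R2.SiegelWalfisz :=
  Pool.Agent.H379R2.SW.siegelWalfisz Pool.Agent.H307R2.siegel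

/-- Siegel-Walfisz for residue classes, modulus at most `log X` (times two). -/
theorem disc_unif (A : ℕ) : ∀ᶠ X : ℝ in atTop, ∀ q : ℕ, 1 ≤ q → (q : ℝ) ≤ Real.log X →
    ∀ a : ℕ, a.Coprime q →
    |psiLogAP X q a - psiLog1 X / (q.totient : ℝ)| ≤ X / (Real.log X) ^ A := by
  obtain ⟨X0, hX0⟩ := sw (A + 2) 1
  have e1 : ∀ᶠ x : ℝ in atTop, 2 ≤ Real.log x := Real.tendsto_log_atTop.eventually_ge_atTop _
  have e2 : ∀ᶠ x : ℝ in atTop, 4 * (Real.log x) ^ (A + 4) ≤ x := by
    have h := (isLittleO_log_rpow_rpow_atTop ((A + 4 : ℕ) : ℝ) (show (0 : ℝ) < 1 by norm_num)).def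
      (show (0 : ℝ) < 1 / 4 by norm_num)
    filter_upwards [h, eventually_ge_atTop (1 : ℝ)] with x h2 h3
    rw [Real.norm_of_nonneg (Real.rpow_nonneg (Real.log_nonneg h3) _), Real.rpow_natCast,
      Real.norm_of_nonneg (Real.rpow_nonneg (by linarith) _), Real.rpow_one] at h2
    linarith
  filter_upwards [e1, e2, eventually_ge_atTop X0, eventually_ge_atTop (1 : ℝ)] with X h1 h2 hXX hX1
  intro q hq hqX a ha
  set l := Real.log X with hl
  have hl0 : 0 < l := by linarith
  have hφ : (1 : ℝ) ≤ Nat.totient q := by exact_mod_cast Nat.totient_pos.2 hq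
  have hb := Pool.Agent.H732R2.B2.AP_bound X hX1 q hq a ha
  refine hb.trans ?_
  have hV : ∀ f ∈ q.divisors.filter (fun f => f ≠ 1),
      Pool.Agent.H732R2.B2.VV X f ≤ (f.totient : ℝ) * (X / l ^ (A + 2)) := by
    intro f hf
    rw [mem_filter, Nat.mem_divisors] at hf
    have hf0 : 0 < f := Nat.pos_of_dvd_of_pos hf.1.1 hq
    have hf1 : 1 < f := by omega
    have hfq : f ≤ q := Nat.le_of_dvd hq hf.1.1
    have hfr : (f : ℝ) ≤ (Real.log X) ^ 1 := by
      rw [pow_one]
      exact le_trans (by exact_mod_cast hfq) hqX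
    unfold Pool.Agent.H732R2.B2.VV
    classical
    refine (Finset.sum_le_card_nsmul _ _ (X / l ^ (A + 2)) ?_).trans ?_
    · intro ψ hψ
      rw [mem_filter] at hψ
      exact hX0 X hXX f hf1 hfr ψ hψ.2
    · rw [nsmul_eq_mul]
      apply mul_le_mul_of_nonneg_right _ (by positivity)
      exact Pool.Agent.H732R2.B2.card_prim f hf0
  have hsum : ∑ f ∈ q.divisors.filter (fun f => f ≠ 1), Pool.Agent.H732R2.B2.VV X f ≤
      (q : ℝ) * (X / l ^ (A + 2)) := by
    refine (Finset.sum_le_sum hV).trans ?_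
    rw [← Finset.sum_mul]
    apply mul_le_mul_of_nonneg_right _ (by positivity)
    calc ∑ f ∈ q.divisors.filter (fun f => f ≠ 1), (f.totient : ℝ) ≤ ∑ f ∈ q.divisors, (f.totient : ℝ) :=
          Finset.sum_le_sum_of_subset_of_nonneg (filter_subset _ _) (fun _ _ _ => by positivity)
      _ = q := by exact_mod_cast Nat.sum_totient q
  have hom : (q.primeFactors.card : ℝ) ≤ q := by
    have h5 : q.primeFactors ⊆ Finset.Icc 1 q := by
      intro p hp
      rw [Finset.mem_Icc]
      exact ⟨(Nat.prime_of_mem_primeFactors hp).one_lt.le, Nat.le_of_mem_primeFactors hp⟩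
    have h6 := Finset.card_le_card h5
    rw [Nat.card_Icc] at h6
    exact_mod_cast (by omega : q.primeFactors.card ≤ q)
  have h3 : (1 / (Nat.totient q : ℝ)) * ∑ f ∈ q.divisors.filter (fun f => f ≠ 1),
      Pool.Agent.H732R2.B2.VV X f ≤ X / l ^ (A + 1) := by
    calc (1 / (Nat.totient q : ℝ)) * ∑ f ∈ q.divisors.filter (fun f => f ≠ 1),
        Pool.Agent.H732R2.B2.VV X f ≤ 1 * ((q : ℝ) * (X / l ^ (A + 2))) := by
          apply mul_le_mul _ hsum (Finset.sum_nonneg fun f _ => Pool.Agent.H732R2.B2.VV_nonneg X f)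
            (by norm_num)
          rw [div_le_one (by linarith)]
          exact hφ
      _ ≤ 1 * (l * (X / l ^ (A + 2))) := by gcongr
      _ = X / l ^ (A + 1) := by
          rw [pow_succ l (A + 1)]
          field_simp
  have h4 : 2 * (q : ℝ) * Pool.Agent.H732R2.B2.er X q ≤ X / l ^ A / 2 := by
    unfold Pool.Agent.H732R2.B2.er
    have h5 : 2 * (q : ℝ) * ((q.primeFactors.card : ℝ) * Real.log X ^ 2) ≤ 2 * l * (l * l ^ 2) := by
      gcongr
      exact hom.trans hqX
    refine h5.trans ?_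
    rw [div_div, le_div_iff₀ (by positivity)]
    calc 2 * l * (l * l ^ 2) * (l ^ A * 2) = 4 * l ^ (A + 4) := by ring
      _ ≤ X := h2
  have h6 : X / l ^ (A + 1) ≤ X / l ^ A / 2 := by
    rw [div_div]
    apply div_le_div_of_nonneg_left (by linarith) (by positivity)
    rw [pow_succ]
    gcongr
  linarith

/-- Primes in short intervals in residue classes, uniformly in the modulus `q ≤ log x`. -/
theorem exists_prime_short_unif (A : ℕ) :
    ∀ᶠ x : ℝ in atTop, ∀ q : ℕ, 1 ≤ q → (q : ℝ) ≤ Real.log x → ∀ a : ℕ, a.Coprime q →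
      ∃ p : ℕ, p.Prime ∧ p ≡ a [MOD q] ∧ x < p ∧ (p : ℝ) ≤ x + x / (Real.log x) ^ A := by
  obtain ⟨δ, η, hδ, hδ1, hη, x₀, hx₀3, hpsi⟩ := psi_diff
  obtain ⟨X0, hD⟩ := eventually_atTop.1 (disc_unif (2 * A + 4))
  have e1 : ∀ᶠ x : ℝ in atTop, 10 + 200 / η ≤ Real.log x :=
    Real.tendsto_log_atTop.eventually_ge_atTop _
  have e3 : ∀ᶠ x : ℝ in atTop, 96 / η * (Real.log x) ^ (A + 3) ≤ Real.sqrt x := by
    have h := (isLittleO_log_rpow_rpow_atTop ((A + 3 : ℕ) : ℝ) (show (0 : ℝ) < 1 / 2 by norm_num)).def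
      (show (0 : ℝ) < 1 / (96 / η) by positivity)
    filter_upwards [h, eventually_ge_atTop (1 : ℝ)] with x h2 h3
    rw [Real.norm_of_nonneg (Real.rpow_nonneg (Real.log_nonneg h3) _),
      Real.norm_of_nonneg (Real.rpow_nonneg (by linarith) _), ← Real.sqrt_eq_rpow,
      Real.rpow_natCast] at h2
    calc 96 / η * (Real.log x) ^ (A + 3) ≤ 96 / η * (1 / (96 / η) * Real.sqrt x) := by gcongr
      _ = Real.sqrt x := by field_simp
  have e4 : ∀ᶠ x : ℝ in atTop, (3 * x) ^ (1 - δ) + 3 ≤ x / (Real.log x) ^ (A + 1) := by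
    have h := (isLittleO_log_rpow_rpow_atTop ((A + 1 : ℕ) : ℝ) (show (0 : ℝ) < δ / 2 by linarith)).def
      (show (0 : ℝ) < 1 by norm_num)
    have h2 := (tendsto_rpow_atTop (show (0 : ℝ) < δ / 2 by linarith)).eventually_ge_atTop (3 + 3)
    filter_upwards [h, h2, eventually_ge_atTop (3 : ℝ), Real.tendsto_log_atTop.eventually_ge_atTop 1] with
      x h3 h4 h5 h6
    have hx0 : 0 < x := by linarith
    rw [one_mul, Real.norm_of_nonneg (Real.rpow_nonneg (Real.log_nonneg (by linarith)) _),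
      Real.norm_of_nonneg (Real.rpow_nonneg (by linarith) _), Real.rpow_natCast] at h3
    rw [le_div_iff₀ (by positivity)]
    have h8 : (3 * x) ^ (1 - δ) ≤ 3 * x ^ (1 - δ) := by
      rw [Real.mul_rpow (by norm_num) hx0.le]
      apply mul_le_mul_of_nonneg_right _ (Real.rpow_nonneg hx0.le _)
      calc (3 : ℝ) ^ (1 - δ) ≤ (3 : ℝ) ^ (1 : ℝ) :=
            Real.rpow_le_rpow_of_exponent_le (by norm_num) (by linarith)
        _ = 3 := Real.rpow_one _
    have h9 : (1 : ℝ) ≤ x ^ (1 - δ) := Real.one_le_rpow (by linarith) (by linarith)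
    calc ((3 * x) ^ (1 - δ) + 3) * Real.log x ^ (A + 1) ≤ ((3 + 3) * x ^ (1 - δ)) * x ^ (δ / 2) := by
          apply mul_le_mul _ h3 (by positivity) (by positivity)
          linarith
      _ ≤ (x ^ (δ / 2) * x ^ (1 - δ)) * x ^ (δ / 2) := by gcongr
      _ = x := by
        rw [← Real.rpow_add hx0, ← Real.rpow_add hx0]
        rw [show δ / 2 + (1 - δ) + δ / 2 = 1 by ring, Real.rpow_one]
  filter_upwards [e1, e3, e4, eventually_ge_atTop X0, eventually_ge_atTop x₀] with x h1 h3 h4 hxX0 hxx0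
  intro q hq hql a ha
  by_contra hcon
  push Not at hcon
  have hx3 : 3 ≤ x := hx₀3.trans hxx0
  have hx0 : 0 < x := by linarith
  set l := Real.log x with hl
  have hqe : 0 < 200 / η := by positivity
  have hl10 : 10 ≤ l := by linarith
  have hl0 : 0 < l := by linarith
  have hφ0 : (0 : ℝ) < q.totient := by exact_mod_cast Nat.totient_pos.2 hq
  have hφl : (q.totient : ℝ) ≤ l := le_trans (by exact_mod_cast Nat.totient_le q) hql
  set v : ℝ := 1 / l ^ (A + 1) with hv
  have hv0 : 0 < v := by positivity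
  have hl4 : (10 : ℝ) ≤ l ^ (A + 1) := by
    calc (10 : ℝ) ≤ l := hl10
      _ = l ^ 1 := (pow_one l).symm
      _ ≤ l ^ (A + 1) := pow_le_pow_right₀ (by linarith) (by omega)
  have hv2 : v ≤ 1 / 8 := by
    rw [hv]
    apply one_div_le_one_div_of_le (by norm_num)
    linarith
  -- the interval
  have hexp : Real.exp (2 * v) ≤ 1 + 4 * v := by
    have h4 := Real.abs_exp_sub_one_sub_id_le (show |2 * v| ≤ 1 by
      rw [abs_of_pos (by positivity)]; linarith)
    have h5 := (abs_le.1 h4).2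
    nlinarith
  have hint : Real.exp (2 * v) * x ≤ x + x / l ^ A := by
    have h5 : 4 * v ≤ 1 / l ^ A := by
      rw [hv, mul_one_div, div_le_div_iff₀ (by positivity) (by positivity)]
      calc 4 * l ^ A ≤ l * l ^ A := by gcongr; linarith
        _ = 1 * l ^ (A + 1) := by ring
    calc Real.exp (2 * v) * x ≤ (1 + 4 * v) * x := by gcongr
      _ = x + (4 * v) * x := by ring
      _ ≤ x + (1 / l ^ A) * x := by gcongr
      _ = _ := by ring
  have hno : ∀ p : ℕ, p.Prime → p ≡ a [MOD q] → x < p → ¬ (p : ℝ) ≤ Real.exp (2 * v) * x := by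
    intro p hp hpa hxp hle
    have h4 := hcon p hp hpa hxp
    linarith
  set X2 := Real.exp (2 * v) * x with hX2
  set M := ⌊X2⌋₊ with hM
  have hup := secdiff_le x v (by linarith) hv0.le q a hno
  rw [← hX2, ← hM] at hup
  have hlow := secdiff1_ge x v hx0 hv0.le M (le_of_eq hM.symm)
  have hs1 := secdiff x v hx0 hv0.le M (le_of_eq hM.symm) q a
  have hs2 := secdiff1 x v hx0 hv0.le M (le_of_eq hM.symm)
  rw [← hs1] at hup
  rw [← hs2] at hlow
  have hX28 : X2 ≤ 2 * x := by
    rw [hX2]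
    have : (1 : ℝ) + 4 * v ≤ 2 := by linarith
    exact mul_le_mul_of_nonneg_right (hexp.trans this) hx0.le
  have hDk : ∀ k : ℝ, 0 ≤ k → k ≤ 2 → |psiLogAP (Real.exp (k * v) * x) q a -
      psiLog1 (Real.exp (k * v) * x) / (q.totient : ℝ)| ≤ 2 * x / l ^ (2 * A + 4) := by
    intro k hk0 hk2
    have h4 : 1 ≤ Real.exp (k * v) := Real.one_le_exp (by positivity)
    have h5 : x ≤ Real.exp (k * v) * x := by nlinarith
    have h6 : Real.exp (k * v) * x ≤ 2 * x := by
      refine le_trans ?_ hX28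
      rw [hX2]
      apply mul_le_mul_of_nonneg_right _ hx0.le
      apply Real.exp_le_exp.2
      exact mul_le_mul_of_nonneg_right hk2 hv0.le
    refine (hD _ (hxX0.trans h5) q hq (hql.trans (Real.log_le_log hx0 h5)) a ha).trans ?_
    apply div_le_div₀ (by positivity) h6 (by positivity)
    exact pow_le_pow_left₀ hl0.le (Real.log_le_log hx0 h5) (2 * A + 4)
  have hD2 := hDk 2 (by norm_num) le_rfl
  have hD1 := hDk 1 (by norm_num) (by norm_num)
  have hD0 := hDk 0 le_rfl (by norm_num)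
  rw [abs_le] at hD2 hD1 hD0
  rw [← hX2] at hD2
  -- the main term
  have hdiff : v * x ≤ Real.exp (3 * v / 2) * x - Real.exp (v / 2) * x := by
    have h4 : Real.exp (3 * v / 2) = Real.exp (v / 2) * Real.exp v := by
      rw [← Real.exp_add]; congr 1; ring
    have h5 := Real.add_one_le_exp v
    have h6 : 1 ≤ Real.exp (v / 2) := Real.one_le_exp (by positivity)
    have h7 : v ≤ Real.exp (3 * v / 2) - Real.exp (v / 2) := by
      rw [h4]; nlinarith
    have h8 := mul_le_mul_of_nonneg_right h7 hx0.le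
    rwa [sub_mul] at h8
  have hexp2 : Real.exp (v / 2) ≤ 3 := by
    calc Real.exp (v / 2) ≤ Real.exp (2 * v) := Real.exp_le_exp.2 (by linarith)
      _ ≤ 3 := by linarith
  have hexp3 : Real.exp (3 * v / 2) ≤ 2 := by
    calc Real.exp (3 * v / 2) ≤ Real.exp (2 * v) := Real.exp_le_exp.2 (by linarith)
      _ ≤ 2 := by linarith
  have hone : 1 ≤ Real.exp (v / 2) := Real.one_le_exp (by positivity)
  have hmain := hpsi (Real.exp (v / 2) * x) (Real.exp (3 * v / 2) * x)
    (by nlinarith) (by nlinarith) (by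
      refine le_trans ?_ hdiff
      have h5 : v * x = x / l ^ (A + 1) := by rw [hv]; ring
      rw [h5]
      refine le_trans ?_ h4
      have h6 : (Real.exp (v / 2) * x) ^ (1 - δ) ≤ (3 * x) ^ (1 - δ) := by
        apply Real.rpow_le_rpow (by positivity) _ (by linarith)
        exact mul_le_mul_of_nonneg_right hexp2 hx0.le
      linarith)
  have hmain2 : η * (v * x) ≤ Chebyshev.psi (Real.exp (3 * v / 2) * x) -
      Chebyshev.psi (Real.exp (v / 2) * x) :=
    (mul_le_mul_of_nonneg_left hdiff hη.le).trans hmain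
  have hT1 : η * v ^ 2 * x / 2 ≤ psiLog1 X2 - 2 * psiLog1 (Real.exp (1 * v) * x) +
      psiLog1 (Real.exp (0 * v) * x) := by
    refine le_trans ?_ hlow
    calc η * v ^ 2 * x / 2 = v / 2 * (η * (v * x)) := by ring
      _ ≤ _ := mul_le_mul_of_nonneg_left hmain2 (by positivity)
  have hT1' : η * v ^ 2 * x / 2 / q.totient ≤ psiLog1 X2 / q.totient -
      2 * (psiLog1 (Real.exp (1 * v) * x) / q.totient) + psiLog1 (Real.exp (0 * v) * x) / q.totient := by
    have h4 := div_le_div_of_nonneg_right hT1 hφ0.le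
    refine h4.trans (le_of_eq ?_)
    ring
  have hfin : η * v ^ 2 * x / 2 / q.totient ≤ 8 * x / l ^ (2 * A + 4) +
      v * (2 * Real.sqrt X2 * Real.log X2) := by
    have e12 : 8 * x / l ^ (2 * A + 4) = 4 * (2 * x / l ^ (2 * A + 4)) := by ring
    rw [e12]
    linarith
  -- contradiction
  have hA : 8 * x / l ^ (2 * A + 4) < η * v ^ 2 * x / 4 / q.totient := by
    have h5 : 200 < l * η := by
      have h6 : 200 / η < l := by linarith
      rwa [div_lt_iff₀ hη] at h6
    have h7 : η * v ^ 2 * x / 4 / l ≤ η * v ^ 2 * x / 4 / q.totient :=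
      div_le_div_of_nonneg_left (by positivity) hφ0 hφl
    refine lt_of_lt_of_le ?_ h7
    rw [hv, div_div, div_lt_div_iff₀ (by positivity) (by positivity)]
    have e5 : η * (1 / l ^ (A + 1)) ^ 2 * x * l ^ (2 * A + 4) = η * x * l ^ 2 := by
      have e6 : l ^ (2 * A + 4) = (l ^ (A + 1)) ^ 2 * l ^ 2 := by ring
      rw [e6]
      field_simp
    rw [e5]
    have h8 : 0 < x * l := by positivity
    nlinarith
  have hB : v * (2 * Real.sqrt X2 * Real.log X2) ≤ η * v ^ 2 * x / 4 / q.totient := by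
    have h4 : Real.sqrt X2 ≤ 2 * Real.sqrt x := by
      calc Real.sqrt X2 ≤ Real.sqrt (4 * x) := Real.sqrt_le_sqrt (by linarith)
        _ = 2 * Real.sqrt x := by
          rw [Real.sqrt_mul (by norm_num), show (4 : ℝ) = 2 ^ 2 by norm_num, Real.sqrt_sq (by norm_num)]
    have h5 : Real.log X2 ≤ 2 * l := by
      have h6 : X2 ≤ x * x := by nlinarith
      have hX20 : 0 < X2 := by positivity
      have h7 := Real.log_le_log hX20 h6
      rw [Real.log_mul hx0.ne' hx0.ne'] at h7
      linarith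
    have h6 : 0 ≤ Real.log X2 := Real.log_nonneg (by
      have : 1 ≤ Real.exp (2 * v) := Real.one_le_exp (by positivity)
      nlinarith)
    have h7 : 2 * Real.sqrt X2 * Real.log X2 ≤ 8 * l * Real.sqrt x := by
      calc 2 * Real.sqrt X2 * Real.log X2 ≤ 2 * (2 * Real.sqrt x) * (2 * l) := by gcongr
        _ = _ := by ring
    have hsq : Real.sqrt x * Real.sqrt x = x := Real.mul_self_sqrt hx0.le
    have hsx : 0 ≤ Real.sqrt x := Real.sqrt_nonneg x
    have h9 : 8 * l * Real.sqrt x ≤ η * v * x / 4 / q.totient := by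
      have h9' : η * v * x / 4 / l ≤ η * v * x / 4 / q.totient :=
        div_le_div_of_nonneg_left (by positivity) hφ0 hφl
      refine le_trans ?_ h9'
      rw [hv, div_div, le_div_iff₀ (by positivity)]
      have h10 : η * (1 / l ^ (A + 1)) * x = η * x / l ^ (A + 1) := by ring
      rw [h10, le_div_iff₀ (by positivity)]
      have h11 : 96 / η * l ^ (A + 3) * η = 96 * l ^ (A + 3) := by
        field_simp
      calc 8 * l * Real.sqrt x * (4 * l) * l ^ (A + 1) = (32 * l ^ (A + 3)) * Real.sqrt x := by ring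
        _ ≤ (Real.sqrt x * η) * Real.sqrt x := by
          apply mul_le_mul_of_nonneg_right _ hsx
          have h12 := mul_le_mul_of_nonneg_right h3 hη.le
          rw [h11] at h12
          have : 0 ≤ l ^ (A + 3) := by positivity
          linarith
        _ = η * (Real.sqrt x * Real.sqrt x) := by ring
        _ = η * x := by rw [hsq]
    calc v * (2 * Real.sqrt X2 * Real.log X2) ≤ v * (η * v * x / 4 / q.totient) :=
          mul_le_mul_of_nonneg_left (h7.trans h9) hv0.le
      _ = _ := by ring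
  have hC2 : η * v ^ 2 * x / 2 / q.totient = η * v ^ 2 * x / 4 / q.totient + η * v ^ 2 * x / 4 / q.totient := by
    ring
  linarith

end Pool.Agent.TH432.Had
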