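import Mathlib
import Pool.Agent.TH432.Had.Short
import Pool.Agent.W851.Had.Tower
import Pool.Agent.W298.MH.Pal
import Pool.Agent.W930.MH.Had

set_option autoImplicit false

/-! Every large multiple of four is the sum of two almost equal Hadamard orders; half of a Hadamard
matrix in every large order. -/

open Filter Topology

namespace Pool.Agent.TH432.Had

open Pool.Agent.W851.Had (tow tow_zero tow_succ tow_pos main_had)
open Pool.Agent.H108R3.Had (HasHad)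

theorem paley {p : ℕ} (hp : p.Prime) (h4 : 4 ∣ p + 1) : HasHad (p + 1) := by
  obtain ⟨_, hc⟩ := Pool.Agent.W298.MH.pal (-1) 0 p hp (Or.inr rfl) (by
    have h5 : ((p : ℤ) - (-1)) = ((p + 1 : ℕ) : ℤ) := by push_cast; ring
    rw [h5]; exact_mod_cast h4)
  obtain ⟨H, hH1, hH2⟩ := Pool.Agent.W930.MH.had.1 0 (p + 1) hc
  refine ⟨H, hH1, ?_⟩
  ext i j
  rw [Matrix.mul_apply]
  simp only [Matrix.transpose_apply, Matrix.smul_apply]
  by_cases hij : i = j
  · subst hij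
    have h6 : ∀ k, H i k * H i k = 1 := fun k => by
      rcases hH1 i k with h | h <;> rw [h] <;> norm_num
    simp [h6]
  · have h6 := hH2 i j hij
    rw [zero_dvd_iff] at h6
    rw [h6]
    simp [hij]

theorem sq_le_two_pow (k : ℕ) (h : 4 ≤ k) : k * k ≤ 2 ^ k := by
  induction k, h using Nat.le_induction with
  | base => norm_num
  | succ k hk ih =>
    rw [pow_succ]; nlinarith

theorem two_pow_le_tow (k : ℕ) : 2 ^ k ≤ tow k := by
  induction k with
  | zero => simp [tow_zero]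
  | succ k ih =>
    rw [tow_succ]
    apply Nat.pow_le_pow_right (by norm_num)
    have := Nat.lt_two_pow_self (n := k)
    omega

theorem tow_mono : StrictMono tow := by
  apply strictMono_nat_of_lt_succ
  intro k; rw [tow_succ]; exact Nat.lt_two_pow_self

theorem tow_big (C : ℕ) : ∃ k₀ : ℕ, ∀ k, k₀ ≤ k → C ^ (k + 4) + 2 ≤ tow k := by
  have hstart : ∃ k₀ : ℕ, 2 ≤ k₀ ∧ C ^ (k₀ + 4) + 2 ≤ tow k₀ := by
    refine ⟨(6 * C + 18) + 1, by omega, ?_⟩
    rw [tow_succ]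
    have h1 : (6 * C + 18) * (6 * C + 18) ≤ tow (6 * C + 18) :=
      (sq_le_two_pow _ (by omega)).trans (two_pow_le_tow _)
    have h2 : C ≤ 2 ^ C := Nat.lt_two_pow_self.le
    calc C ^ (6 * C + 18 + 1 + 4) + 2 ≤ (2 ^ C) ^ (6 * C + 18 + 1 + 4) + 2 := by gcongr
      _ = 2 ^ (C * (6 * C + 18 + 1 + 4)) + 2 := by rw [← pow_mul]
      _ ≤ 2 ^ (C * (6 * C + 18 + 1 + 4) + 2) := by
          rw [pow_add]
          have := Nat.one_le_two_pow (n := C * (6 * C + 18 + 1 + 4))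
          omega
      _ ≤ 2 ^ tow (6 * C + 18) := Nat.pow_le_pow_right (by norm_num) (by nlinarith)
  obtain ⟨k₀, hk2, h0⟩ := hstart
  refine ⟨k₀, fun k hk => ?_⟩
  induction k, hk using Nat.le_induction with
  | base => exact h0
  | succ k hk ih =>
    rw [tow_succ]
    have h4 : 4 ≤ tow k := by
      have h5 := two_pow_le_tow k
      have h6 : 2 ^ 2 ≤ 2 ^ k := Nat.pow_le_pow_right (by norm_num) (by omega)
      omega
    have h5 := sq_le_two_pow (tow k) h4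
    have hC : C ≤ tow k := by
      have h6 : C ≤ C ^ (k + 4) := Nat.le_self_pow (by omega) C
      omega
    refine le_trans ?_ h5
    calc C ^ (k + 1 + 4) + 2 = C * C ^ (k + 4) + 2 := by ring
      _ ≤ tow k * C ^ (k + 4) + tow k * 2 :=
          Nat.add_le_add (Nat.mul_le_mul_right _ hC) (by omega)
      _ = tow k * (C ^ (k + 4) + 2) := by ring
      _ ≤ tow k * tow k := Nat.mul_le_mul_left _ ih

theorem exists_level (C : ℕ) : ∃ n₀ : ℕ, ∀ n : ℕ, n₀ ≤ n → ∃ L : ℕ, n ≤ tow L ∧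
    (2 : ℝ) ^ (C ^ (L + 1)) ≤ Real.log ((n : ℝ) / 4) := by
  obtain ⟨k₀, hk₀⟩ := tow_big C
  refine ⟨tow (k₀ + 3) + 1, fun n hn => ?_⟩
  have hex : ∃ L, n ≤ tow L := ⟨n, Nat.lt_two_pow_self.le.trans (two_pow_le_tow n)⟩
  classical
  set L := Nat.find hex with hL
  have hLn : n ≤ tow L := Nat.find_spec hex
  have hL3 : k₀ + 3 < L := by
    by_contra hcon
    have h1 : tow L ≤ tow (k₀ + 3) := tow_mono.monotone (by omega)
    omega
  obtain ⟨l, hl⟩ : ∃ l, L = l + 3 := ⟨L - 3, by omega⟩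
  have hmin : tow (l + 2) < n := by
    have := Nat.find_min hex (m := l + 2) (by omega)
    omega
  refine ⟨L, hLn, ?_⟩
  have h1 := hk₀ l (by omega)
  rw [hl]
  rw [show l + 3 + 1 = l + 4 by ring]
  set P : ℕ := 2 ^ (C ^ (l + 4)) with hP
  have hP1 : 1 ≤ P := Nat.one_le_two_pow
  have h2 : 4 * P ≤ tow (l + 1) := by
    rw [tow_succ]
    calc 4 * P = 2 ^ (C ^ (l + 4) + 2) := by rw [hP, pow_add]; ring
      _ ≤ 2 ^ tow l := Nat.pow_le_pow_right (by norm_num) h1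
  have h3 : (2 : ℝ) ^ (tow (l + 1)) ≤ n := by
    have h4 : 2 ^ tow (l + 1) ≤ n := by
      have h5 : tow (l + 2) = 2 ^ tow (l + 1) := tow_succ (l + 1)
      omega
    exact_mod_cast h4
  have h5 : (2 : ℝ) ^ (C ^ (l + 4)) = (P : ℝ) := by rw [hP]; push_cast; rfl
  rw [h5]
  have h6 : Real.log ((2 : ℝ) ^ (tow (l + 1)) / 4) ≤ Real.log ((n : ℝ) / 4) := by
    apply Real.log_le_log (by positivity)
    linarith
  refine le_trans ?_ h6
  rw [Real.log_div (by positivity) (by norm_num), Real.log_pow]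
  have h7 : Real.log 4 = 2 * Real.log 2 := by
    rw [show (4 : ℝ) = 2 ^ 2 by norm_num, Real.log_pow]; norm_num
  rw [h7]
  have h8 := Real.log_two_gt_d9
  have h9 : (4 : ℝ) * P ≤ (tow (l + 1) : ℕ) := by exact_mod_cast h2
  have h10 : (1 : ℝ) ≤ P := by exact_mod_cast hP1
  have h11 : (2 : ℝ) * P ≤ (tow (l + 1) : ℕ) - 2 := by linarith
  calc (P : ℝ) = (2 * P) * (1 / 2) := by ring
    _ ≤ ((tow (l + 1) : ℕ) - 2 : ℝ) * Real.log 2 := by
        apply mul_le_mul h11 (by linarith) (by norm_num) (by linarith)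
    _ = _ := by ring

theorem two_orders_aux (A : ℕ) : ∀ᶠ n : ℕ in atTop, 4 ∣ n → ∃ h₁ h₂ : ℕ, h₁ + h₂ = n ∧
    (n : ℝ) / 2 - n / (Real.log n) ^ (A + 1) ≤ h₁ ∧
    (n : ℝ) / 2 - n / (Real.log n) ^ (A + 1) ≤ h₂ ∧ HasHad h₁ ∧ HasHad h₂ := by
  obtain ⟨C, hC2, hmain⟩ := main_had
  obtain ⟨n₁, hn₁⟩ := exists_level C
  obtain ⟨x₁, hx₁⟩ := eventually_atTop.1 (exists_prime_short_unif (A + 2))
  have e0 : Tendsto (fun n : ℕ => (n : ℝ)) atTop atTop := tendsto_natCast_atTop_atTop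
  have e1 : ∀ᶠ n : ℕ in atTop, (8 : ℝ) + 2 ^ (A + 1) ≤ Real.log (n : ℝ) :=
    (Real.tendsto_log_atTop.comp e0).eventually_ge_atTop _
  have e2 : ∀ᶠ n : ℕ in atTop, 4 * x₁ + 16 ≤ (n : ℝ) := e0.eventually_ge_atTop _
  have e3 : ∀ᶠ n : ℕ in atTop, (16 : ℝ) ≤ (n : ℝ) := e0.eventually_ge_atTop _
  filter_upwards [e1, e2, e3, eventually_ge_atTop n₁] with n h1 h2 h3 h4 hdvd
  obtain ⟨L, hL1, hL2⟩ := hn₁ n h4
  set y : ℝ := (n : ℝ) with hy
  set l := Real.log y with hl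
  have hy0 : 0 < y := by linarith
  have hA2 : (1 : ℝ) ≤ 2 ^ (A + 1) := one_le_pow₀ (by norm_num)
  have hl8 : 8 ≤ l := by linarith
  have hl0 : 0 < l := by linarith
  have hlB : 8 ≤ l ^ (A + 1) := by
    calc (8 : ℝ) ≤ l := hl8
      _ = l ^ 1 := (pow_one l).symm
      _ ≤ l ^ (A + 1) := pow_le_pow_right₀ (by linarith) (by omega)
  have hE0 : 0 < y / l ^ (A + 1) := by positivity
  have hE : y / l ^ (A + 1) ≤ y / 8 := div_le_div_of_nonneg_left hy0.le (by norm_num) hlB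
  set x : ℝ := y / 2 - 1 - y / l ^ (A + 1) with hx
  have hxl : y / 4 ≤ x := by rw [hx]; linarith
  have hxu : x ≤ y / 2 := by rw [hx]; linarith
  have hx0 : 0 < x := by linarith
  have hlx : Real.log (y / 4) ≤ Real.log x := Real.log_le_log (by positivity) hxl
  have hlx2 : l / 2 ≤ Real.log x := by
    refine le_trans ?_ hlx
    have h5 : Real.sqrt y ≤ y / 4 := by
      rw [Real.sqrt_le_left (by positivity)]
      nlinarith
    calc l / 2 = Real.log (Real.sqrt y) := by rw [Real.log_sqrt hy0.le]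
      _ ≤ _ := Real.log_le_log (Real.sqrt_pos.2 hy0) h5
  set t := C ^ (L + 1) with ht
  have ht2 : 2 ≤ t := by
    rw [ht]
    exact hC2.trans (Nat.le_self_pow (by omega) C)
  have hn16 : 16 ≤ n := by
    have h5 : (16 : ℝ) ≤ (n : ℝ) := h3
    exact_mod_cast h5
  have hq : ((2 ^ t : ℕ) : ℝ) ≤ Real.log x := by
    push_cast
    exact hL2.trans hlx
  have hcop : (n - 1).Coprime (2 ^ t) := by
    apply Nat.Coprime.pow_right
    rw [Nat.coprime_two_right]
    obtain ⟨k, rfl⟩ := hdvd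
    exact ⟨2 * k - 1, by omega⟩
  obtain ⟨p, hp, hpm, hpl, hpu⟩ := hx₁ x (by linarith) (2 ^ t) Nat.one_le_two_pow hq (n - 1) hcop
  have hlow : y / 2 - y / l ^ (A + 1) ≤ ((p + 1 : ℕ) : ℝ) := by
    push_cast
    linarith
  have hpow : x / (Real.log x) ^ (A + 2) ≤ 2 * (y / l ^ (A + 1)) := by
    calc x / (Real.log x) ^ (A + 2) ≤ (y / 2) / (l / 2) ^ (A + 2) := by
          apply div_le_div₀ (by positivity) hxu (by positivity)
          exact pow_le_pow_left₀ (by positivity) hlx2 _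
      _ = 2 ^ (A + 1) * y / l ^ (A + 2) := by
          rw [div_pow]
          field_simp
          ring
      _ ≤ 2 * (y / l ^ (A + 1)) := by
          rw [div_le_iff₀ (by positivity), pow_succ l (A + 1)]
          have h6 : 2 * (y / l ^ (A + 1)) * (l ^ (A + 1) * l) = 2 * y * l := by
            field_simp
          rw [h6]
          nlinarith
  have hupp : ((p + 1 : ℕ) : ℝ) ≤ y / 2 + y / l ^ (A + 1) := by
    push_cast
    linarith
  have hple : p + 1 ≤ n := by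
    have h7 : ((p + 1 : ℕ) : ℝ) ≤ (n : ℝ) := by
      refine hupp.trans ?_
      rw [← hy]
      linarith
    exact_mod_cast h7
  have hmod : p + 1 ≡ n [MOD 2 ^ t] := by
    have h7 := hpm.add_right 1
    rwa [Nat.sub_add_cancel (by omega)] at h7
  have hdv : 2 ^ t ∣ n - (p + 1) := (Nat.modEq_iff_dvd' hple).1 hmod
  have hp4 : 4 ∣ p + 1 := by
    have h7 : p + 1 ≡ n [MOD 4] := hmod.of_dvd (by
      calc 4 = 2 ^ 2 := by norm_num
        _ ∣ 2 ^ t := pow_dvd_pow 2 ht2)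
    exact (h7.dvd_iff (dvd_refl 4)).2 hdvd
  obtain ⟨q', hq'⟩ := hdv
  refine ⟨p + 1, n - (p + 1), by omega, hlow, ?_, paley hp hp4, ?_⟩
  · rw [Nat.cast_sub hple]
    linarith
  · rw [hq']
    apply hmain L q' t _ le_rfl
    have h8 : q' ≤ 2 ^ t * q' := Nat.le_mul_of_pos_left _ (by positivity)
    omega

theorem two_orders (A : ℕ) : ∀ᶠ n : ℕ in atTop, 4 ∣ n → ∃ h₁ h₂ : ℕ, h₁ + h₂ = n ∧
    (n : ℝ) / 2 - n / (Real.log n) ^ A ≤ h₁ ∧
    (n : ℝ) / 2 - n / (Real.log n) ^ A ≤ h₂ ∧ HasHad h₁ ∧ HasHad h₂ := by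
  have e0 : Tendsto (fun n : ℕ => (n : ℝ)) atTop atTop := tendsto_natCast_atTop_atTop
  have e1 : ∀ᶠ n : ℕ in atTop, (1 : ℝ) ≤ Real.log (n : ℝ) :=
    (Real.tendsto_log_atTop.comp e0).eventually_ge_atTop _
  filter_upwards [two_orders_aux A, e1] with n h1 h2 h3
  obtain ⟨h₁, h₂, ha, hb, hc, hd, he⟩ := h1 h3
  have h5 : (n : ℝ) / (Real.log n) ^ (A + 1) ≤ (n : ℝ) / (Real.log n) ^ A := by
    apply div_le_div_of_nonneg_left (by positivity) (by positivity)
    exact pow_le_pow_right₀ h2 (by omega)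
  exact ⟨h₁, h₂, ha, by linarith, by linarith, hd, he⟩

/-- two Hadamard matrices side by side -/
theorem glue {h₁ h₂ : ℕ} (H1 : HasHad h₁) (H2 : HasHad h₂) :
    ∃ M : Matrix (Fin (min h₁ h₂)) (Fin (h₁ + h₂)) ℤ, (∀ i j, M i j = 1 ∨ M i j = -1) ∧
      M * M.transpose = ((h₁ + h₂ : ℕ) : ℤ) • (1 : Matrix (Fin (min h₁ h₂)) (Fin (min h₁ h₂)) ℤ) := by
  obtain ⟨P, hP1, hP2⟩ := H1
  obtain ⟨Q, hQ1, hQ2⟩ := H2
  refine ⟨Matrix.of fun i => Fin.append (fun a => P (Fin.castLE (min_le_left _ _) i) a)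
    (fun a => Q (Fin.castLE (min_le_right _ _) i) a), ?_, ?_⟩
  · intro i j
    rw [Matrix.of_apply]
    refine Fin.addCases (fun a => ?_) (fun a => ?_) j
    · rw [Fin.append_left]; exact hP1 _ _
    · rw [Fin.append_right]; exact hQ1 _ _
  · ext i j
    rw [Matrix.mul_apply, Fin.sum_univ_add]
    simp only [Matrix.transpose_apply, Matrix.of_apply, Fin.append_left, Fin.append_right]
    have h1 := congrFun (congrFun hP2 (Fin.castLE (min_le_left _ _) i))
      (Fin.castLE (min_le_left _ _) j)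
    have h2 := congrFun (congrFun hQ2 (Fin.castLE (min_le_right _ _) i))
      (Fin.castLE (min_le_right _ _) j)
    rw [Matrix.mul_apply] at h1 h2
    simp only [Matrix.transpose_apply] at h1 h2
    rw [h1, h2]
    simp only [Matrix.smul_apply, Matrix.one_apply]
    by_cases hij : i = j
    · subst hij; simp
    · have h3 : Fin.castLE (min_le_left h₁ h₂) i ≠ Fin.castLE (min_le_left h₁ h₂) j := by
        intro h; exact hij (Fin.castLE_injective _ h)
      have h4 : Fin.castLE (min_le_right h₁ h₂) i ≠ Fin.castLE (min_le_right h₁ h₂) j := by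
        intro h; exact hij (Fin.castLE_injective _ h)
      simp [hij]

theorem main (A : ℕ) : ∃ n₀ : ℕ, ∀ n : ℕ, n₀ ≤ n → 4 ∣ n →
    (∃ h₁ h₂ : ℕ, h₁ + h₂ = n ∧
      (n : ℝ) / 2 - n / (Real.log n) ^ A ≤ h₁ ∧
      (n : ℝ) / 2 - n / (Real.log n) ^ A ≤ h₂ ∧ HasHad h₁ ∧ HasHad h₂) ∧
    ∃ m : ℕ, (n : ℝ) / 2 - n / (Real.log n) ^ A ≤ m ∧
      ∃ M : Matrix (Fin m) (Fin n) ℤ, (∀ i j, M i j = 1 ∨ M i j = -1) ∧
        M * M.transpose = (n : ℤ) • (1 : Matrix (Fin m) (Fin m) ℤ) := by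
  obtain ⟨n₀, hn₀⟩ := eventually_atTop.1 (two_orders A)
  refine ⟨n₀, fun n hn h4 => ?_⟩
  obtain ⟨h₁, h₂, ha, hb, hc, hd, he⟩ := hn₀ n hn h4
  refine ⟨⟨h₁, h₂, ha, hb, hc, hd, he⟩, ?_⟩
  subst ha
  refine ⟨min h₁ h₂, ?_, glue hd he⟩
  rw [Nat.cast_min]
  exact le_min hb hc

end Pool.Agent.TH432.Had
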