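import Mathlib
import Pool.Agent.W851.Had.Tower

set_option autoImplicit false

/-! Hadamard matrices of order `4 q` from a Hadamard matrix of order `q - 1` and the Paley core of a
field with `q` elements. -/

namespace Pool.Agent.TH432.Had

open Finset Matrix
open Pool.Agent.H108R3.Had (HasHad)

theorem had_reindex {ι : Type} [Fintype ι] [DecidableEq ι] {n : ℕ} (hn : Fintype.card ι = n)
    (H : ι → ι → ℤ) (h1 : ∀ i j, H i j = 1 ∨ H i j = -1)
    (h2 : ∀ i j, ∑ k, H i k * H j k = if i = j then (n : ℤ) else 0) : HasHad n := by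
  let e : ι ≃ Fin n := Fintype.equivFinOfCardEq hn
  refine ⟨Matrix.of fun i j => H (e.symm i) (e.symm j), fun i j => h1 _ _, ?_⟩
  ext i j
  rw [Matrix.mul_apply]
  simp only [Matrix.transpose_apply, Matrix.of_apply, Matrix.smul_apply]
  rw [Equiv.sum_comp e.symm (fun k => H (e.symm i) k * H (e.symm j) k), h2]
  by_cases hij : i = j
  · subst hij; simp
  · have : e.symm i ≠ e.symm j := fun h => hij (e.symm.injective h)
    simp [hij, this]

theorem had_transpose {n : ℕ} (H : Matrix (Fin n) (Fin n) ℤ)
    (h2 : H * H.transpose = (n : ℤ) • (1 : Matrix (Fin n) (Fin n) ℤ)) :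
    H.transpose * H = (n : ℤ) • (1 : Matrix (Fin n) (Fin n) ℤ) := by
  rcases Nat.eq_zero_or_pos n with hn | hn
  · subst hn
    ext i; exact i.elim0
  · have hn' : (n : ℚ) ≠ 0 := by positivity
    have hmap : Function.Injective (fun M : Matrix (Fin n) (Fin n) ℤ => M.map (Int.cast : ℤ → ℚ)) :=
      Matrix.map_injective Int.cast_injective
    apply hmap
    have h3 := congrArg (fun M : Matrix (Fin n) (Fin n) ℤ => M.map (Int.castRingHom ℚ)) h2
    simp only [Matrix.map_mul] at h3
    have h4 : ((n : ℤ) • (1 : Matrix (Fin n) (Fin n) ℤ)).map (Int.castRingHom ℚ) =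
        (n : ℚ) • (1 : Matrix (Fin n) (Fin n) ℚ) := by
      ext i j
      simp only [Matrix.map_apply, Matrix.smul_apply, Matrix.one_apply]
      by_cases hij : i = j <;> simp [hij]
    rw [h4] at h3
    have h5 : ((n : ℚ)⁻¹ • H.map (Int.castRingHom ℚ)) * H.transpose.map (Int.castRingHom ℚ) = 1 := by
      rw [Matrix.smul_mul, h3, smul_smul, inv_mul_cancel₀ hn', one_smul]
    have h6 := mul_eq_one_comm.1 h5
    rw [Matrix.mul_smul] at h6
    have h7 : H.transpose.map (Int.castRingHom ℚ) * H.map (Int.castRingHom ℚ) =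
        (n : ℚ) • (1 : Matrix (Fin n) (Fin n) ℚ) := by
      rw [← h6, smul_smul, mul_inv_cancel₀ hn', one_smul]
    show (H.transpose * H).map (Int.castRingHom ℚ) =
      ((n : ℤ) • (1 : Matrix (Fin n) (Fin n) ℤ)).map (Int.castRingHom ℚ)
    rw [Matrix.map_mul, h4, h7]

/-- sign of a boolean -/
def sg (b : Bool) : ℤ := if b then -1 else 1

theorem sg_sq (b : Bool) : sg b * sg b = 1 := by cases b <;> rfl

theorem sg_cases (b : Bool) : sg b = 1 ∨ sg b = -1 := by cases b <;> simp [sg]

/-- the data used by the construction -/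
structure Data (α : Type) [Fintype α] [DecidableEq α] where
  /-- core without a row -/
  P : α → α → ℤ
  /-- the removed row -/
  c : α → ℤ
  /-- Hadamard matrix -/
  K : α → α → ℤ
  k : ℤ
  P0 : ∀ x, P x x = 0
  P1 : ∀ x y, x ≠ y → P x y = 1 ∨ P x y = -1
  hc : ∀ x, c x = 1 ∨ c x = -1
  hP : ∀ x y, ∑ z, P x z * P y z = (if x = y then k else 0) - 1 - c x * c y
  hr : ∀ x, ∑ y, P x y = - c x
  hs : ∀ x, ∑ y, P x y * c y = -1
  hcs : ∑ y, c y = 0
  K1 : ∀ x y, K x y = 1 ∨ K x y = -1
  hK : ∀ x y, ∑ z, K x z * K y z = if x = y then k - 1 else 0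
  hK' : ∀ x y, ∑ z, K z x * K z y = if x = y then k - 1 else 0
  hcard : (Fintype.card α : ℤ) = k - 1

namespace Data

variable {α : Type} [Fintype α] [DecidableEq α] (D : Data α)

/-- the inner weighing matrix -/
def V : Bool × α → Bool × α → ℤ
  | (false, x), (false, y) => if x = y then 1 else 0
  | (true, x), (true, y) => if x = y then 1 else 0
  | (false, x), (true, y) => D.K x y
  | (true, x), (false, y) => - D.K y x

/-- the inner conference type matrix -/
def U (r r' : Bool × α) : ℤ := if r.1 = r'.1 then D.P r.2 r'.2 else 0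

/-- the inner part -/
def X (r r' : Bool × Bool × α) : ℤ :=
  D.U (r.1, r.2.2) (r'.1, r'.2.2) + sg r.2.1 * sg r'.2.1 * D.V (r.1, r.2.2) (r'.1, r'.2.2)

/-- border columns -/
def G' (r : Bool × Bool × α) (l : Bool × Bool) : ℤ :=
  (if l.1 then sg r.1 else 1) * (if l.2 then D.c r.2.2 else 1)

/-- corner -/
def F (i l : Bool × Bool) : ℤ :=
  (if l.1 then sg i.1 else 1) * (if l.2 then sg i.2 else 1) * (if l = (false, false) then -1 else 1)

/-- value of the border rows on a group -/
def g (i : Bool × Bool) (ε : Bool) (c : ℤ) : ℤ :=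
  c * (if i.1 = ε ∧ sg i.2 = c then 1 else -1)

/-- border rows -/
def G (i : Bool × Bool) (r : Bool × Bool × α) : ℤ := g i r.1 (D.c r.2.2)

/-- the matrix -/
def M : (Bool × Bool) ⊕ (Bool × Bool × α) → (Bool × Bool) ⊕ (Bool × Bool × α) → ℤ
  | Sum.inl i, Sum.inl j => F i j
  | Sum.inl i, Sum.inr r => D.G i r
  | Sum.inr r, Sum.inl j => D.G' r j
  | Sum.inr r, Sum.inr r' => D.X r r'

theorem sum_c (f : ℤ → ℤ) : 2 * ∑ y, f (D.c y) = (D.k - 1) * (f 1 + f (-1)) := by
  have h1 : ∀ y, 2 * f (D.c y) = (f 1 + f (-1)) + D.c y * (f 1 - f (-1)) := by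
    intro y
    rcases D.hc y with h | h <;> rw [h] <;> ring
  rw [mul_sum, sum_congr rfl fun y _ => h1 y, sum_add_distrib, ← sum_mul, D.hcs, sum_const,
    card_univ, nsmul_eq_mul, D.hcard]
  ring

theorem sum_cP (f : ℤ → ℤ) (x : α) :
    2 * ∑ y, f (D.c y) * D.P x y = -(f 1 + f (-1)) * D.c x - (f 1 - f (-1)) := by
  have h1 : ∀ y, 2 * (f (D.c y) * D.P x y) =
      D.P x y * (f 1 + f (-1)) + (D.P x y * D.c y) * (f 1 - f (-1)) := by
    intro y
    rcases D.hc y with h | h <;> rw [h] <;> ring
  rw [mul_sum, sum_congr rfl fun y _ => h1 y, sum_add_distrib, ← sum_mul, ← sum_mul, D.hr, D.hs]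
  ring

theorem VV (r r' : Bool × α) : ∑ z : Bool × α, D.V r z * D.V r' z = if r = r' then D.k else 0 := by
  rw [Fintype.sum_prod_type]
  obtain ⟨ε, x⟩ := r
  obtain ⟨ε', x'⟩ := r'
  have hsym : ∀ a b : α, (if a = b then (1 : ℤ) else 0) = if b = a then 1 else 0 := by
    intro a b; simp only [eq_comm]
  cases ε <;> cases ε' <;> simp only [V, Fintype.sum_bool, Prod.mk.injEq, true_and, false_and,
    if_false, reduceCtorEq]
  · rw [D.hK]
    by_cases h : x = x' <;> simp [h]
  · simp
  · simp
  · simp only [neg_mul_neg]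
    rw [D.hK']
    by_cases h : x = x' <;> simp [h]

theorem UU (r r' : Bool × α) : ∑ z : Bool × α, D.U r z * D.U r' z =
    if r.1 = r'.1 then (if r.2 = r'.2 then D.k else 0) - 1 - D.c r.2 * D.c r'.2 else 0 := by
  rw [Fintype.sum_prod_type]
  obtain ⟨ε, x⟩ := r
  obtain ⟨ε', x'⟩ := r'
  cases ε <;> cases ε' <;> simp [U, D.hP]

theorem XX (r r' : Bool × Bool × α) : ∑ z, D.X r z * D.X r' z =
    2 * (if r.1 = r'.1 then (if r.2.2 = r'.2.2 then D.k else 0) - 1 - D.c r.2.2 * D.c r'.2.2 else 0)
      + 2 * (sg r.2.1 * sg r'.2.1) * (if (r.1, r.2.2) = (r'.1, r'.2.2) then D.k else 0) := by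
  have h1 : ∑ z, D.X r z * D.X r' z = ∑ z : Bool × α, (2 * (D.U (r.1, r.2.2) z * D.U (r'.1, r'.2.2) z)
      + 2 * (sg r.2.1 * sg r'.2.1) * (D.V (r.1, r.2.2) z * D.V (r'.1, r'.2.2) z)) := by
    rw [Fintype.sum_prod_type, Fintype.sum_prod_type]
    refine sum_congr rfl fun ε _ => ?_
    rw [Fintype.sum_prod_type, sum_comm]
    refine sum_congr rfl fun y _ => ?_
    rw [Fintype.sum_bool]
    simp only [X, sg]
    simp only [if_true, Bool.false_eq_true, if_false]
    ring
  rw [h1, sum_add_distrib, ← mul_sum, ← mul_sum, UU, VV]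

theorem main_row (p p' : (Bool × Bool) ⊕ (Bool × Bool × α)) :
    ∑ z, D.M p z * D.M p' z = if p = p' then 4 * D.k else 0 := by
  rw [Fintype.sum_sum_type]
  rcases p with i | r <;> rcases p' with j | r'
  · -- border, border
    simp only [M, G]
    have h1 : ∑ z : Bool × Bool × α, g i z.1 (D.c z.2.2) * g j z.1 (D.c z.2.2) =
        ∑ ε : Bool, 2 * ∑ y, g i ε (D.c y) * g j ε (D.c y) := by
      rw [Fintype.sum_prod_type]
      refine sum_congr rfl fun ε _ => ?_
      rw [Fintype.sum_prod_type]
      simp only [Fintype.sum_bool]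
      ring
    rw [h1]
    have h2 : ∀ ε : Bool, 2 * ∑ y, g i ε (D.c y) * g j ε (D.c y) =
        (D.k - 1) * (g i ε 1 * g j ε 1 + g i ε (-1) * g j ε (-1)) := fun ε =>
      D.sum_c (fun c => g i ε c * g j ε c)
    rw [sum_congr rfl fun ε _ => h2 ε]
    rw [Fintype.sum_prod_type]
    simp only [Fintype.sum_bool, Sum.inl.injEq]
    obtain ⟨i1, i2⟩ := i
    obtain ⟨j1, j2⟩ := j
    cases i1 <;> cases i2 <;> cases j1 <;> cases j2 <;> simp [F, g, sg] <;> ring
  · -- border, inner
    simp only [M, G, reduceCtorEq, if_false]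
    obtain ⟨ε, s, x⟩ := r'
    have h1 : ∑ z : Bool × Bool × α, g i z.1 (D.c z.2.2) * D.X (ε, s, x) z =
        2 * ∑ y, g i ε (D.c y) * D.P x y := by
      rw [Fintype.sum_prod_type]
      have h3 : ∀ ε' : Bool, ∑ z : Bool × α, g i ε' (D.c z.2) * D.X (ε, s, x) (ε', z) =
          if ε = ε' then 2 * ∑ y, g i ε (D.c y) * D.P x y else 0 := by
        intro ε'
        rw [Fintype.sum_prod_type]
        simp only [Fintype.sum_bool, X, U, sg, if_true, Bool.false_eq_true, if_false]
        rw [← sum_add_distrib]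
        by_cases h : ε = ε'
        · subst h
          simp only [if_true]
          rw [mul_sum]
          refine sum_congr rfl fun y _ => ?_
          ring
        · simp only [h, if_false]
          apply sum_eq_zero
          intro y _
          ring
      rw [sum_congr rfl fun ε' _ => h3 ε', sum_ite_eq]
      simp
    rw [h1, D.sum_cP (fun c => g i ε c) x]
    rw [Fintype.sum_prod_type]
    simp only [Fintype.sum_bool, G']
    obtain ⟨i1, i2⟩ := i
    rcases D.hc x with h | h <;> rw [h] <;> cases i1 <;> cases i2 <;> cases ε <;> simp [F, g, sg]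
  · -- inner, border
    simp only [M, G, reduceCtorEq, if_false]
    obtain ⟨ε, s, x⟩ := r
    have h1 : ∑ z : Bool × Bool × α, D.X (ε, s, x) z * g j z.1 (D.c z.2.2) =
        2 * ∑ y, g j ε (D.c y) * D.P x y := by
      rw [Fintype.sum_prod_type]
      have h3 : ∀ ε' : Bool, ∑ z : Bool × α, D.X (ε, s, x) (ε', z) * g j ε' (D.c z.2) =
          if ε = ε' then 2 * ∑ y, g j ε (D.c y) * D.P x y else 0 := by
        intro ε'
        rw [Fintype.sum_prod_type]
        simp only [Fintype.sum_bool, X, U, sg, if_true, Bool.false_eq_true, if_false]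
        rw [← sum_add_distrib]
        by_cases h : ε = ε'
        · subst h
          simp only [if_true]
          rw [mul_sum]
          refine sum_congr rfl fun y _ => ?_
          ring
        · simp only [h, if_false]
          apply sum_eq_zero
          intro y _
          ring
      rw [sum_congr rfl fun ε' _ => h3 ε', sum_ite_eq]
      simp
    rw [h1, D.sum_cP (fun c => g j ε c) x]
    rw [Fintype.sum_prod_type]
    simp only [Fintype.sum_bool, G']
    obtain ⟨j1, j2⟩ := j
    rcases D.hc x with h | h <;> rw [h] <;> cases j1 <;> cases j2 <;> cases ε <;> simp [F, g, sg]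
  · -- inner, inner
    simp only [M]
    rw [D.XX, Fintype.sum_prod_type]
    simp only [Fintype.sum_bool, G', if_true, Bool.false_eq_true, if_false, Sum.inr.injEq]
    obtain ⟨ε, s, x⟩ := r
    obtain ⟨ε', s', x'⟩ := r'
    simp only [Prod.mk.injEq]
    by_cases hx : x = x'
    · subst hx
      have hcc : D.c x * D.c x = 1 := by rcases D.hc x with h | h <;> rw [h] <;> norm_num
      cases ε <;> cases ε' <;> cases s <;> cases s' <;> simp [sg] <;> ring
    · cases ε <;> cases ε' <;> cases s <;> cases s' <;> simp [sg, hx] <;> ring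

theorem M_sign (p p' : (Bool × Bool) ⊕ (Bool × Bool × α)) : D.M p p' = 1 ∨ D.M p p' = -1 := by
  rcases p with i | r <;> rcases p' with j | r'
  · obtain ⟨i1, i2⟩ := i
    obtain ⟨j1, j2⟩ := j
    cases i1 <;> cases i2 <;> cases j1 <;> cases j2 <;> simp [M, F, sg]
  · simp only [M, G, g]
    obtain ⟨ε, s, x⟩ := r'
    rcases D.hc x with h | h <;> rw [h] <;> split_ifs <;> simp
  · simp only [M, G']
    obtain ⟨ε, s, x⟩ := r
    obtain ⟨j1, j2⟩ := j
    rcases D.hc x with h | h <;> rw [h] <;> cases j1 <;> cases j2 <;> cases ε <;> simp [sg]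
  · simp only [M, X]
    obtain ⟨ε, s, x⟩ := r
    obtain ⟨ε', s', x'⟩ := r'
    have hss : sg s * sg s' = 1 ∨ sg s * sg s' = -1 := by
      rcases sg_cases s with h | h <;> rcases sg_cases s' with h' | h' <;> rw [h, h'] <;> norm_num
    by_cases hx : x = x'
    · subst hx
      cases ε <;> cases ε' <;> simp only [U, V, D.P0, if_true, Bool.false_eq_true, if_false,
        reduceCtorEq, zero_add, mul_one]
      · exact hss
      · rcases hss with h | h <;> rcases D.K1 x x with h' | h' <;> rw [h, h'] <;> norm_num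
      · rcases hss with h | h <;> rcases D.K1 x x with h' | h' <;> rw [h, h'] <;> norm_num
      · exact hss
    · cases ε <;> cases ε' <;> simp only [U, V, hx, if_true, Bool.false_eq_true, if_false,
        reduceCtorEq, zero_add, mul_zero, add_zero]
      · exact D.P1 x x' hx
      · rcases hss with h | h <;> rcases D.K1 x x' with h' | h' <;> rw [h, h'] <;> norm_num
      · rcases hss with h | h <;> rcases D.K1 x' x with h' | h' <;> rw [h, h'] <;> norm_num
      · exact D.P1 x x' hx

theorem hasHad (n : ℕ) (hn : (n : ℤ) = 4 * D.k) : HasHad n := by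
  apply had_reindex (ι := (Bool × Bool) ⊕ (Bool × Bool × α)) _ D.M D.M_sign
  · intro p p'
    rw [D.main_row, hn]
  · have h := D.hcard
    simp only [Fintype.card_sum, Fintype.card_prod, Fintype.card_bool]
    zify
    linarith

end Data

/-! ### The data of a finite field -/

section field

variable {F : Type} [Field F] [Fintype F] [DecidableEq F]

theorem sum_ne_zero (f : F → ℤ) : ∑ z : {x : F // x ≠ 0}, f z = ∑ z, f z - f 0 := by
  rw [Fintype.sum_eq_add_sum_subtype_ne f 0]
  ring

theorem chi_neg_one (h4 : Fintype.card F % 4 = 1) : quadraticChar F (-1) = 1 := by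
  rw [quadraticChar_one_iff_isSquare (neg_ne_zero.2 one_ne_zero), FiniteField.isSquare_neg_one_iff]
  omega

theorem chi_neg (h4 : Fintype.card F % 4 = 1) (x : F) : quadraticChar F (-x) = quadraticChar F x := by
  rw [← neg_one_mul, map_mul, chi_neg_one h4, one_mul]

theorem chi_sq {x : F} (hx : x ≠ 0) : quadraticChar F x * quadraticChar F x = 1 := by
  rw [← sq]; exact quadraticChar_sq_one hx

omit [DecidableEq F] in
theorem char_ne_two (h4 : Fintype.card F % 4 = 1) : ringChar F ≠ 2 := by
  intro h
  have h1 := FiniteField.even_card_of_char_two h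
  omega

/-- the correlation sum -/
theorem sum_chi (h4 : Fintype.card F % 4 = 1) (x y : F) :
    ∑ z, quadraticChar F (x - z) * quadraticChar F (y - z) =
      (if x = y then (Fintype.card F : ℤ) else 0) - 1 := by
  have hF := char_ne_two h4
  have h1 : ∑ z, quadraticChar F (x - z) * quadraticChar F (y - z) =
      ∑ w, quadraticChar F w * quadraticChar F (w + (y - x)) := by
    rw [← Equiv.sum_comp (Equiv.subLeft x)]
    refine sum_congr rfl fun w _ => ?_
    simp only [Equiv.subLeft_apply]
    congr 2 <;> ring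
  rw [h1]
  by_cases hxy : x = y
  · subst hxy
    rw [if_pos rfl]
    simp only [sub_self, add_zero]
    have h2 : ∀ w : F, quadraticChar F w * quadraticChar F w = if w = 0 then 0 else 1 := by
      intro w
      by_cases hw : w = 0
      · subst hw; simp
      · rw [chi_sq hw, if_neg hw]
    rw [sum_congr rfl fun w _ => h2 w]
    have h3 : ∀ w : F, (if w = 0 then (0 : ℤ) else 1) = 1 - if w = 0 then 1 else 0 := by
      intro w; split_ifs <;> norm_num
    rw [sum_congr rfl fun w _ => h3 w, sum_sub_distrib]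
    simp
  · rw [if_neg hxy, zero_sub]
    set d := y - x with hd
    have hd0 : d ≠ 0 := sub_ne_zero.2 (Ne.symm hxy)
    have h2 : ∑ w, quadraticChar F w * quadraticChar F (w + d) =
        ∑ w : {x : F // x ≠ 0}, quadraticChar F (1 + d / w) := by
      rw [sum_ne_zero (fun w => quadraticChar F (1 + d / w))]
      have h3 : ∀ w : F, quadraticChar F w * quadraticChar F (w + d) =
          quadraticChar F (1 + d / w) - if w = 0 then 1 else 0 := by
        intro w
        by_cases hw : w = 0
        · subst hw; simp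
        · rw [if_neg hw, sub_zero]
          have h4 : w + d = w * (1 + d / w) := by field_simp
          rw [h4, map_mul, ← mul_assoc, chi_sq hw, one_mul]
      rw [sum_congr rfl fun w _ => h3 w, sum_sub_distrib]
      simp
    rw [h2]
    -- inversion
    let e : {x : F // x ≠ 0} ≃ {x : F // x ≠ 0} :=
      { toFun := fun w => ⟨d / w, div_ne_zero hd0 w.2⟩
        invFun := fun w => ⟨d / w, div_ne_zero hd0 w.2⟩
        left_inv := fun w => by ext; simp [hd0]
        right_inv := fun w => by ext; simp [hd0] }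
    have h5 : ∑ w : {x : F // x ≠ 0}, quadraticChar F (1 + d / w) =
        ∑ w : {x : F // x ≠ 0}, quadraticChar F (1 + w) :=
      Equiv.sum_comp e (fun w : {x : F // x ≠ 0} => quadraticChar F (1 + w))
    rw [h5, sum_ne_zero (fun w => quadraticChar F (1 + w))]
    have h6 : ∑ w : F, quadraticChar F (1 + w) = 0 := by
      have h7 := Equiv.sum_comp (Equiv.addLeft (1 : F)) (fun w => quadraticChar F w)
      simp only [Equiv.coe_addLeft] at h7
      rw [h7]
      exact quadraticChar_sum_zero hF
    rw [h6]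
    simp

/-- the data of a finite field -/
noncomputable def fieldData (h4 : Fintype.card F % 4 = 1)
    (K : {x : F // x ≠ 0} → {x : F // x ≠ 0} → ℤ) (K1 : ∀ x y, K x y = 1 ∨ K x y = -1)
    (hK : ∀ x y, ∑ z, K x z * K y z = if x = y then (Fintype.card F : ℤ) - 1 else 0)
    (hK' : ∀ x y, ∑ z, K z x * K z y = if x = y then (Fintype.card F : ℤ) - 1 else 0) :
    Data {x : F // x ≠ 0} where
  P x y := quadraticChar F (x - y)
  c x := quadraticChar F x
  K := K
  k := Fintype.card F
  P0 x := by simp
  P1 x y hxy := by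
    apply quadraticChar_dichotomy
    rw [sub_ne_zero]
    exact fun h => hxy (Subtype.ext h)
  hc x := quadraticChar_dichotomy x.2
  hP x y := by
    rw [sum_ne_zero (fun z => quadraticChar F (x - z) * quadraticChar F (y - z)), sum_chi h4]
    simp only [sub_zero]
    by_cases h : x = y
    · subst h; simp
    · have h' : (x : F) ≠ y := fun h' => h (Subtype.ext h')
      simp [h, h']
  hr x := by
    rw [sum_ne_zero (fun z => quadraticChar F (x - z))]
    have h7 := Equiv.sum_comp (Equiv.subLeft (x : F)) (fun w => quadraticChar F w)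
    simp only [Equiv.subLeft_apply] at h7
    rw [h7, quadraticChar_sum_zero (char_ne_two h4)]
    simp
  hs x := by
    rw [sum_ne_zero (fun z => quadraticChar F (x - z) * quadraticChar F z)]
    have h1 := sum_chi h4 (x : F) 0
    rw [if_neg x.2] at h1
    simp only [zero_sub, chi_neg h4] at h1
    rw [h1]
    simp
  hcs := by
    rw [sum_ne_zero (fun z => quadraticChar F z), quadraticChar_sum_zero (char_ne_two h4)]
    simp
  K1 := K1
  hK := hK
  hK' := hK'
  hcard := by
    rw [Fintype.card_subtype_compl]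
    have h1 : 0 < Fintype.card F := Fintype.card_pos
    simp
    omega

/-- Miyamoto's theorem -/
theorem miyamoto (h4 : Fintype.card F % 4 = 1) (h : HasHad (Fintype.card F - 1)) :
    HasHad (4 * Fintype.card F) := by
  obtain ⟨H, hH1, hH2⟩ := h
  have hH3 := had_transpose H hH2
  have hc : Fintype.card {x : F // x ≠ 0} = Fintype.card F - 1 := by
    rw [Fintype.card_subtype_compl]
    simp
  have h1 : 0 < Fintype.card F := Fintype.card_pos
  let e : {x : F // x ≠ 0} ≃ Fin (Fintype.card F - 1) := Fintype.equivFinOfCardEq hc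
  have hcast : ((Fintype.card F - 1 : ℕ) : ℤ) = (Fintype.card F : ℤ) - 1 := by omega
  refine (fieldData h4 (fun x y => H (e x) (e y)) (fun x y => hH1 _ _) ?_ ?_).hasHad _ ?_
  · intro x y
    rw [Equiv.sum_comp e (fun z => H (e x) z * H (e y) z)]
    have h2 := congrFun (congrFun hH2 (e x)) (e y)
    rw [Matrix.mul_apply] at h2
    simp only [Matrix.transpose_apply, Matrix.smul_apply, Matrix.one_apply] at h2
    rw [h2, hcast]
    by_cases hxy : x = y
    · subst hxy; simp
    · have : e x ≠ e y := fun h => hxy (e.injective h)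
      simp [hxy, this]
  · intro x y
    rw [Equiv.sum_comp e (fun z => H z (e x) * H z (e y))]
    have h2 := congrFun (congrFun hH3 (e x)) (e y)
    rw [Matrix.mul_apply] at h2
    simp only [Matrix.transpose_apply, Matrix.smul_apply, Matrix.one_apply] at h2
    rw [h2, hcast]
    by_cases hxy : x = y
    · subst hxy; simp
    · have : e x ≠ e y := fun h => hxy (e.injective h)
      simp [hxy, this]
  · show ((4 * Fintype.card F : ℕ) : ℤ) = 4 * (Fintype.card F : ℤ)
    push_cast
    ring

end field

/-- prime powers `q = 1` modulo a huge power of two -/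
theorem main_prime_pow : ∃ C : ℕ, 2 ≤ C ∧ ∀ n q t : ℕ, IsPrimePow q →
    q ≤ Pool.Agent.W851.Had.tow n → C ^ (n + 1) ≤ t → 2 ^ t ∣ q - 1 → HasHad (4 * q) := by
  obtain ⟨C, hC, hm⟩ := Pool.Agent.W851.Had.main_had
  refine ⟨C, hC, fun n q t hq hqn ht hdv => ?_⟩
  have hq2 : 2 ≤ q := hq.two_le
  obtain ⟨m, hm'⟩ := hdv
  have h1 : HasHad (q - 1) := by
    rw [hm']
    apply hm n m t _ ht
    have : m ≤ 2 ^ t * m := Nat.le_mul_of_pos_left _ (by positivity)
    omega
  obtain ⟨p, k, hp, hk, rfl⟩ := hq
  have hp' : p.Prime := hp.nat_prime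
  have : Fact p.Prime := ⟨hp'⟩
  have : Fintype (GaloisField p k) := Fintype.ofFinite _
  have hcard : Fintype.card (GaloisField p k) = p ^ k := by
    rw [← Nat.card_eq_fintype_card, GaloisField.card p k (by omega)]
  classical
  have ht2 : 2 ≤ t := by
    refine le_trans ?_ ht
    exact hC.trans (Nat.le_self_pow (by omega) C)
  have h4 : p ^ k % 4 = 1 := by
    have h5 : 2 ^ t = 4 * 2 ^ (t - 2) := by
      conv_lhs => rw [show t = 2 + (t - 2) by omega, pow_add]
      norm_num
    rw [h5, mul_assoc] at hm'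
    omega
  have h6 := miyamoto (F := GaloisField p k) (by rw [hcard]; exact h4) (by rw [hcard]; exact h1)
  rwa [hcard] at h6

end Pool.Agent.TH432.Had
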